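import Pool.Agent.R470.Keller.Tz
import Pool.Agent.E8helper43.KE.FolDiv

/-!
# The trapezoid conjecture, foliations and three terms of an orbit of a vector field

Let `F, G` be complex polynomials in `x, y` whose bracket is a nonzero constant. Let `E` be one of the
vector fields `∂_y`, `p x ∂_x + q y ∂_y`, `∂_x + β y ∂_y`, `x ∂_x + (m y + x ^ m) ∂_y`, in some
coordinates of the plane (by results of Rentschler and van den Essen, which are not used, these are
the locally finite vector fields, up to a factor in `ℂ[x]` in the first case). Then `(F, G)` is an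
automorphism if

* the foliation by the orbits of `E` is the inverse image of a foliation under the map `(F, G)`, that
  is, `E(F) / E(G)` lies in `ℂ(F, G)` or `E(G) = 0`; or
* `ℂ[F, G]` contains `c`, `E(c)` and `E(E(c))` for a nonconstant polynomial `c`.

Let `E = P ∂_x + Q ∂_y` with coprime `P, Q`. If the foliation given by `E` is the inverse image of a
foliation, then `E` preserves `ℂ[F, G]` and the divergence of `E` lies in `ℂ[F, G]`; if it is not constant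
and a semi-invariant of an automorphism of infinite order, or if it is not constant and `P`, `Q` have
degree at most two, then `(F, G)` is an automorphism.

It follows that `[F, G] = 0` for the pairs of the trapezoid conjecture (conditions 1, 4 and 5) for
which one of these conditions is satisfied.
-/

set_option autoImplicit false

open MvPolynomial

namespace Pool.Agent.Results.MP_2d59ee_ag.FoliationsH43

/-- the polynomial vector field `P ∂_x + Q ∂_y`, applied to `f` -/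
noncomputable def V (P Q f : MvPolynomial (Fin 2) ℂ) : MvPolynomial (Fin 2) ℂ :=
  P * pderiv 0 f + Q * pderiv 1 f

/-- `∂_y`, `p x ∂_x + q y ∂_y`, `∂_x + β y ∂_y` or `x ∂_x + (m y + x ^ m) ∂_y` -/
def NormalForm (P Q : MvPolynomial (Fin 2) ℂ) : Prop :=
  (P = 0 ∧ Q = 1) ∨ (∃ p q : ℂ, (p ≠ 0 ∨ q ≠ 0) ∧ P = C p * X 0 ∧ Q = C q * X 1) ∨
  (∃ β : ℂ, P = 1 ∧ Q = C β * X 1) ∨
  (∃ m : ℕ, 1 ≤ m ∧ P = X 0 ∧ Q = C (m : ℂ) * X 1 + X 0 ^ m)

/-- the foliation given by `P ∂_x + Q ∂_y` is the inverse image of the foliation given by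
`a ∂_u + b ∂_v` under the map `(F, G)` -/
def Foliated (P Q F G : MvPolynomial (Fin 2) ℂ) : Prop :=
  ∃ a b : MvPolynomial (Fin 2) ℂ, (a ≠ 0 ∨ b ≠ 0) ∧
    V P Q F * aeval ![F, G] b = V P Q G * aeval ![F, G] a

/-- `ℂ[F, G]` contains three terms `c, E(c), E(E(c))` for a nonconstant polynomial `c`, where
`E = P ∂_x + Q ∂_y` -/
def ThreeTerms (P Q F G : MvPolynomial (Fin 2) ℂ) : Prop :=
  ∃ c : MvPolynomial (Fin 2) ℂ, (∀ a, c ≠ C a) ∧ c ∈ Algebra.adjoin ℂ {F, G} ∧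
    V P Q c ∈ Algebra.adjoin ℂ {F, G} ∧ V P Q (V P Q c) ∈ Algebra.adjoin ℂ {F, G}

/-- the conditions on `(F, G)`; in the first one `(θ F, θ G)` is the map `(F, G)` in other
coordinates -/
def Special (F G : MvPolynomial (Fin 2) ℂ) : Prop :=
  (∃ (θ : MvPolynomial (Fin 2) ℂ ≃ₐ[ℂ] MvPolynomial (Fin 2) ℂ) (P Q : MvPolynomial (Fin 2) ℂ),
    NormalForm P Q ∧ (Foliated P Q (θ F) (θ G) ∨ ThreeTerms P Q (θ F) (θ G))) ∨
  (∃ P Q : MvPolynomial (Fin 2) ℂ, IsRelPrime P Q ∧ Foliated P Q F G ∧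
    (∀ a, pderiv 0 P + pderiv 1 Q ≠ C a) ∧
    ((P.totalDegree ≤ 2 ∧ Q.totalDegree ≤ 2) ∨
      ∃ φ : MvPolynomial (Fin 2) ℂ ≃ₐ[ℂ] MvPolynomial (Fin 2) ℂ, (∀ l : ℕ, 0 < l → φ ^ l ≠ 1) ∧
        ∃ l : ℂ, φ (pderiv 0 P + pderiv 1 Q) = C l * (pderiv 0 P + pderiv 1 Q)))

/-- (1) If the bracket of `F, G` is a nonzero constant and `Special F G` holds, then
`ℂ[F, G] = ℂ[x, y]`.

(2) If the bracket of `F, G` is a nonzero constant, `P`, `Q` are coprime and the foliation given by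
`P ∂_x + Q ∂_y` is an inverse image under `(F, G)`, then this vector field preserves `ℂ[F, G]` and its
divergence lies in `ℂ[F, G]`.

(3) Let `a, b ≥ 2` be coprime, let `a` divide `m, n > 0` and let `F, G` be complex polynomials whose
Newton polygons are the trapezoids `T_{m,n}` and `T_{bm/a,bn/a}` and whose bracket is constant. If
`Special F G` holds, then `[F, G] = 0`. -/
theorem result :
    (∀ (F G : MvPolynomial (Fin 2) ℂ) (e : ℂ), e ≠ 0 →
      pderiv 0 F * pderiv 1 G - pderiv 1 F * pderiv 0 G = C e → Special F G →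
      Algebra.adjoin ℂ {F, G} = ⊤) ∧
    (∀ (F G : MvPolynomial (Fin 2) ℂ) (e : ℂ), e ≠ 0 →
      pderiv 0 F * pderiv 1 G - pderiv 1 F * pderiv 0 G = C e →
      ∀ P Q : MvPolynomial (Fin 2) ℂ, IsRelPrime P Q → Foliated P Q F G →
      (∀ s ∈ Algebra.adjoin ℂ {F, G}, V P Q s ∈ Algebra.adjoin ℂ {F, G}) ∧
      pderiv 0 P + pderiv 1 Q ∈ Algebra.adjoin ℂ {F, G}) ∧
    (∀ (a b m n : ℕ), 0 < m → 0 < n → a ∣ m → a ∣ n → Nat.gcd a b = 1 → 2 ≤ a → 2 ≤ b →
      ∀ (F G : MvPolynomial (Fin 2) ℂ),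
      convexHull ℝ (insert ((0:ℝ), (0:ℝ))
        ((fun d : Fin 2 →₀ ℕ => ((d 0 : ℝ), (d 1 : ℝ))) '' (↑F.support : Set (Fin 2 →₀ ℕ))))
        = {p : ℝ × ℝ | 0 ≤ p.2 ∧ p.2 ≤ (n : ℝ) ∧ 0 ≤ p.1 ∧ p.1 ≤ (m : ℝ) + (n : ℝ) - p.2} →
      convexHull ℝ (insert ((0:ℝ), (0:ℝ))
        ((fun d : Fin 2 →₀ ℕ => ((d 0 : ℝ), (d 1 : ℝ))) '' (↑G.support : Set (Fin 2 →₀ ℕ))))
        = {p : ℝ × ℝ | 0 ≤ p.2 ∧ p.2 ≤ ((b * n / a : ℕ) : ℝ) ∧ 0 ≤ p.1 ∧
            p.1 ≤ ((b * m / a : ℕ) : ℝ) + ((b * n / a : ℕ) : ℝ) - p.2} →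
      (∃ e : ℂ, pderiv 0 F * pderiv 1 G - pderiv 1 F * pderiv 0 G = C e) → Special F G →
      pderiv 0 F * pderiv 1 G - pderiv 1 F * pderiv 0 G = 0) := by
  have hSS : ∀ F G : MvPolynomial (Fin 2) ℂ,
      Algebra.adjoin ℂ {F, G} = Pool.Agent.H922R2.SS ![F, G] := by
    intro F G
    have h4 : Set.range ![F, G] = {F, G} := by
      rw [Matrix.range_cons, Matrix.range_cons, Matrix.range_empty, Set.union_empty]
      rfl
    rw [← h4, Algebra.adjoin_range_eq_range_aeval]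
  have hJac : ∀ (F G : MvPolynomial (Fin 2) ℂ) (e : ℂ), e ≠ 0 →
      pderiv 0 F * pderiv 1 G - pderiv 1 F * pderiv 0 G = C e →
      IsUnit (Pool.Agent.H922R2.jac ![F, G]).det := fun F G e he0 he =>
    Pool.Agent.R470.Keller.det_unit ![F, G] he0 (by simpa using he)
  have hθ : ∀ (θ : MvPolynomial (Fin 2) ℂ ≃ₐ[ℂ] MvPolynomial (Fin 2) ℂ)
      (F G : MvPolynomial (Fin 2) ℂ), (fun i => θ (![F, G] i)) = ![θ F, θ G] := by
    intro θ F G
    funext i
    fin_cases i <;> rfl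
  have key : ∀ (F G : MvPolynomial (Fin 2) ℂ) (e : ℂ), e ≠ 0 →
      pderiv 0 F * pderiv 1 G - pderiv 1 F * pderiv 0 G = C e → Special F G →
      Algebra.adjoin ℂ {F, G} = ⊤ := by
    intro F G e he0 he hsp
    have hJ := hJac F G e he0 he
    rw [hSS]
    rcases hsp with ⟨θ, P, Q, hNF, hcase⟩ | ⟨P, Q, hco, ⟨a, b, hab, hfol⟩, hnc, hcase⟩
    · apply Pool.Agent.H922R2.SS_top_comp ![F, G] θ
      have hJ' := Pool.Agent.H922R2.jac_comp θ ![F, G] hJ
      rw [hθ] at hJ' ⊢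
      have hNF' : Pool.Agent.E8helper43.KE.NF P Q := hNF
      rcases hcase with ⟨a, b, hab, hfol⟩ | ⟨c, hc, h0, h1, h2⟩
      · exact hNF'.top_of_fol ![θ F, θ G] hJ' a b hab hfol
      · rw [hSS] at h0 h1 h2
        exact hNF'.top_of_three ![θ F, θ G] hJ' c hc h0 h1 h2
    · rcases hcase with ⟨hP, hQ⟩ | ⟨φ, hφ, l, hl⟩
      · exact Pool.Agent.E8helper43.KE.top_of_quad ![F, G] hJ P Q hco a b hab hfol hP hQ hnc
      · have hdiv := Pool.Agent.E8helper43.KE.div_mem' ![F, G] hJ P Q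
          (Pool.Agent.E8helper43.KE.vf_mem_of_fol ![F, G] hJ P Q hco a b hab hfol)
        exact Pool.Agent.E8helper43.KE.top_of_semi ![F, G] hJ φ hφ _ hdiv hnc l hl
  refine ⟨key, ?_, ?_⟩
  · intro F G e he0 he P Q hco hfol
    have hJ := hJac F G e he0 he
    obtain ⟨a, b, hab, hfol⟩ := hfol
    have h1 := Pool.Agent.E8helper43.KE.vf_mem_of_fol ![F, G] hJ P Q hco a b hab hfol
    rw [hSS]
    exact ⟨fun s hs => Pool.Agent.E8helper43.KE.vf_mem ![F, G] P Q h1 s hs,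
      Pool.Agent.E8helper43.KE.div_mem' ![F, G] hJ P Q h1⟩
  · intro a b m n hm hn ham han hab ha hb F G h1 h4 h5 hsp
    obtain ⟨e, he⟩ := h5
    by_cases he0 : e = 0
    · rw [he, he0, map_zero]
    exfalso
    have hng :=
      Pool.Agent.R470.Keller.tz_not_good a b m n hm hn ham han hab ha hb F G h1 h4 he0 he
    have htop := key F G e he0 he hsp
    apply hng
    apply Pool.Agent.R470.Keller.good_of_inv
    have h2 : ∀ i : Fin 2, ∃ g : MvPolynomial (Fin 2) ℂ, aeval ![F, G] g = X i := by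
      intro i
      have h3 : (X i : MvPolynomial (Fin 2) ℂ) ∈ Pool.Agent.H922R2.SS ![F, G] := by
        rw [← hSS, htop]; exact Algebra.mem_top
      exact h3
    choose g hg using h2
    exact ⟨g, hg⟩

end Pool.Agent.Results.MP_2d59ee_ag.FoliationsH43
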