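import Pool.Agent.R470.Keller.Tz
import Pool.Agent.E8helper43.KE.PolAB

/-!
# The trapezoid conjecture and polynomials with isomorphic general fibres in `ℂ[F, G]`

Let `F, G` be complex polynomials in `x, y` whose bracket is a nonzero constant. If `ℂ[F, G]`
contains, in some coordinates of the plane, one of the following polynomials, then `(F, G)` is an
automorphism:

(A) `g(x) (a(x) y + b(x)) ^ n`, `n ≥ 1`;

(B) a polynomial which is quasi-homogeneous, with a nonzero weight, in `x` and `x ^ l y + p(x)`;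

(C) in general, a semi-invariant, with a nonzero weight, of a vector field which has constant
divergence and poles, and all its poles along lines `x = const`.

The general fibres of the polynomials in (A), (B) are isomorphic to each other; by a theorem of Suzuki
(not used) the polynomials with general fibre `ℂ ∖ {0}` are, up to a constant, of the form (A).

It follows that `[F, G] = 0` for the pairs of the trapezoid conjecture (conditions 1, 4 and 5) with
such a polynomial in `ℂ[F, G]`.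

The proof: a vector field `E` which normalises the Hamiltonian field of an element `c` of `ℂ[F, G]`
preserves `ℂ(F, G)`; if the lines of its poles are not given by elements of `ℂ[F, G]` then `E`
preserves `ℂ[F, G]`, is a combination of the vector fields `∂_F`, `∂_G` with coefficients in
`ℂ[F, G]`, and has no poles at all.
-/

set_option autoImplicit false

open MvPolynomial

namespace Pool.Agent.Results.MP_2d59ee_ag.IsotrivialElementsH43

/-- `c = g(x) (a(x) y + b(x)) ^ n` with `n ≥ 1`, `g ≠ 0`, `a ≠ 0` -/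
def TypeA (c : MvPolynomial (Fin 2) ℂ) : Prop :=
  ∃ (g a b : Polynomial ℂ) (n : ℕ), n ≠ 0 ∧ g ≠ 0 ∧ a ≠ 0 ∧
    c = Polynomial.aeval (X 0) g *
      (Polynomial.aeval (X 0) a * X 1 + Polynomial.aeval (X 0) b) ^ n

/-- `c ≠ 0` is quasi-homogeneous in `x` and `w = x ^ l y + p(x)`, `deg p < l` (`p = 0` if `l = 0`):
`x ^ N c = r(x, w)`, all monomials `x ^ i w ^ j` of `r` have the weight `α i + β j = d`, and the
weight `d - α N` of `c` is not `0` -/
def TypeB (c : MvPolynomial (Fin 2) ℂ) : Prop :=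
  ∃ (l N : ℕ) (p : Polynomial ℂ) (α β d : ℤ) (r : MvPolynomial (Fin 2) ℂ),
    p.degree < l ∧ (∀ m ∈ r.support, α * (m 0 : ℤ) + β * (m 1 : ℤ) = d) ∧ d ≠ α * N ∧ c ≠ 0 ∧
    X 0 ^ N * c = aeval ![X 0, X 0 ^ l * X 1 + Polynomial.aeval (X 0) p] r

/-- `c` is not constant, `E(c) = λ c`, `λ ≠ 0`, for a vector field `E = (P ∂_x + Q ∂_y) / s(x)` which
is not polynomial and has the constant divergence `μ` -/
def TypeC (c : MvPolynomial (Fin 2) ℂ) : Prop :=
  ∃ (s : Polynomial ℂ) (P Q : MvPolynomial (Fin 2) ℂ) (l μ : ℂ), s ≠ 0 ∧ l ≠ 0 ∧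
    ¬ (Polynomial.aeval (X 0) s ∣ P ∧ Polynomial.aeval (X 0) s ∣ Q) ∧ (∀ a, c ≠ C a) ∧
    P * pderiv 0 c + Q * pderiv 1 c = C l * Polynomial.aeval (X 0) s * c ∧
    Polynomial.aeval (X 0) s * (pderiv 0 P + pderiv 1 Q) -
      P * pderiv 0 (Polynomial.aeval (X 0) s) = C μ * Polynomial.aeval (X 0) s ^ 2

/-- (1) Let `F, G` be complex polynomials the bracket of which is a nonzero constant and let
`ℂ[F, G]` contain the image, under an automorphism `θ` of `ℂ[x, y]`, of a polynomial of one of the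
types (A), (B), (C). Then `ℂ[F, G] = ℂ[x, y]`.

(2) Let `a, b ≥ 2` be coprime, let `a` divide `m, n > 0` and let `F, G` be complex polynomials whose
Newton polygons are the trapezoids `T_{m,n}` and `T_{bm/a,bn/a}` and whose bracket is constant. If
`ℂ[F, G]` contains a polynomial as in (1), then `[F, G] = 0`. -/
theorem result :
    (∀ (F G : MvPolynomial (Fin 2) ℂ) (e : ℂ), e ≠ 0 →
      pderiv 0 F * pderiv 1 G - pderiv 1 F * pderiv 0 G = C e →
      ∀ (θ : MvPolynomial (Fin 2) ℂ ≃ₐ[ℂ] MvPolynomial (Fin 2) ℂ) (c : MvPolynomial (Fin 2) ℂ),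
      (TypeA c ∨ TypeB c ∨ TypeC c) → θ c ∈ Algebra.adjoin ℂ {F, G} →
      Algebra.adjoin ℂ {F, G} = ⊤) ∧
    (∀ (a b m n : ℕ), 0 < m → 0 < n → a ∣ m → a ∣ n → Nat.gcd a b = 1 → 2 ≤ a → 2 ≤ b →
      ∀ (F G : MvPolynomial (Fin 2) ℂ),
      convexHull ℝ (insert ((0:ℝ), (0:ℝ))
        ((fun d : Fin 2 →₀ ℕ => ((d 0 : ℝ), (d 1 : ℝ))) '' (↑F.support : Set (Fin 2 →₀ ℕ))))
        = {p : ℝ × ℝ | 0 ≤ p.2 ∧ p.2 ≤ (n : ℝ) ∧ 0 ≤ p.1 ∧ p.1 ≤ (m : ℝ) + (n : ℝ) - p.2} →
      convexHull ℝ (insert ((0:ℝ), (0:ℝ))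
        ((fun d : Fin 2 →₀ ℕ => ((d 0 : ℝ), (d 1 : ℝ))) '' (↑G.support : Set (Fin 2 →₀ ℕ))))
        = {p : ℝ × ℝ | 0 ≤ p.2 ∧ p.2 ≤ ((b * n / a : ℕ) : ℝ) ∧ 0 ≤ p.1 ∧
            p.1 ≤ ((b * m / a : ℕ) : ℝ) + ((b * n / a : ℕ) : ℝ) - p.2} →
      (∃ e : ℂ, pderiv 0 F * pderiv 1 G - pderiv 1 F * pderiv 0 G = C e) →
      ∀ (θ : MvPolynomial (Fin 2) ℂ ≃ₐ[ℂ] MvPolynomial (Fin 2) ℂ) (c : MvPolynomial (Fin 2) ℂ),
      (TypeA c ∨ TypeB c ∨ TypeC c) → θ c ∈ Algebra.adjoin ℂ {F, G} →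
      pderiv 0 F * pderiv 1 G - pderiv 1 F * pderiv 0 G = 0) := by
  have hSS : ∀ F G : MvPolynomial (Fin 2) ℂ,
      Algebra.adjoin ℂ {F, G} = Pool.Agent.H922R2.SS ![F, G] := by
    intro F G
    have h4 : Set.range ![F, G] = {F, G} := by
      rw [Matrix.range_cons, Matrix.range_cons, Matrix.range_empty, Set.union_empty]
      rfl
    rw [← h4, Algebra.adjoin_range_eq_range_aeval]
  have key : ∀ (F G : MvPolynomial (Fin 2) ℂ) (e : ℂ), e ≠ 0 →
      pderiv 0 F * pderiv 1 G - pderiv 1 F * pderiv 0 G = C e →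
      ∀ (θ : MvPolynomial (Fin 2) ℂ ≃ₐ[ℂ] MvPolynomial (Fin 2) ℂ) (c : MvPolynomial (Fin 2) ℂ),
      (TypeA c ∨ TypeB c ∨ TypeC c) → θ c ∈ Algebra.adjoin ℂ {F, G} →
      Algebra.adjoin ℂ {F, G} = ⊤ := by
    intro F G e he0 he θ c hc hcS
    have hJ : IsUnit (Pool.Agent.H922R2.jac ![F, G]).det :=
      Pool.Agent.R470.Keller.det_unit ![F, G] he0 (by simpa using he)
    rw [hSS] at hcS ⊢
    -- change the coordinates
    apply Pool.Agent.H922R2.SS_top_comp ![F, G] θ.symm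
    have hJ' := Pool.Agent.H922R2.jac_comp θ.symm ![F, G] hJ
    have hcS' : c ∈ Pool.Agent.H922R2.SS (fun i => θ.symm (![F, G] i)) := by
      have h1 := (Pool.Agent.H922R2.mem_SS_comp θ.symm ![F, G] (θ c)).2 hcS
      rwa [AlgEquiv.symm_apply_apply] at h1
    rcases hc with hA | hB | hC
    · obtain ⟨g, a, b, n, hn, hg, ha, rfl⟩ := hA
      exact Pool.Agent.E8helper43.KE.top_of_A _ hJ' g a b n hn hg ha hcS'
    · obtain ⟨l, N, p, α, β, d, r, hp, hr, hd, hc0, hx⟩ := hB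
      exact Pool.Agent.E8helper43.KE.top_of_B _ hJ' l p hp α β d r hr N hd c hx hc0 hcS'
    · obtain ⟨s, P, Q, l, μ, hs, hl, hpole, hnc, hE, hdiv⟩ := hC
      have hs1 : pderiv 1 (Polynomial.aeval (X 0) s : MvPolynomial (Fin 2) ℂ) = 0 :=
        Pool.Agent.E8helper43.KE.pd1_ux s
      refine Pool.Agent.E8helper43.KE.top_of_pol _ hJ' c hcS' hnc (Polynomial.aeval (X 0) s) P Q
        (Pool.Agent.E8helper43.KE.ux_ne hs) hs1 hpole hl hE (C μ) 1 one_ne_zero ?_
      have h2 : (aeval (fun i => θ.symm (![F, G] i)) (C μ : MvPolynomial (Fin 2) ℂ) :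
          MvPolynomial (Fin 2) ℂ) = C μ :=
        (aeval (fun i => θ.symm (![F, G] i)) :
          MvPolynomial (Fin 2) ℂ →ₐ[ℂ] MvPolynomial (Fin 2) ℂ).commutes μ
      rw [map_one, mul_one, h2, hs1, mul_zero, add_zero, hdiv]
      ring
  refine ⟨key, ?_⟩
  intro a b m n hm hn ham han hab ha hb F G h1 h4 h5 θ c hc hcS
  obtain ⟨e, he⟩ := h5
  by_cases he0 : e = 0
  · rw [he, he0, map_zero]
  exfalso
  have hng := Pool.Agent.R470.Keller.tz_not_good a b m n hm hn ham han hab ha hb F G h1 h4 he0 he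
  have htop := key F G e he0 he θ c hc hcS
  apply hng
  apply Pool.Agent.R470.Keller.good_of_inv
  have h2 : ∀ i : Fin 2, ∃ g : MvPolynomial (Fin 2) ℂ, aeval ![F, G] g = X i := by
    intro i
    have h3 : (X i : MvPolynomial (Fin 2) ℂ) ∈ Pool.Agent.H922R2.SS ![F, G] := by
      rw [← hSS, htop]; exact Algebra.mem_top
    exact h3
  choose g hg using h2
  exact ⟨g, hg⟩

end Pool.Agent.Results.MP_2d59ee_ag.IsotrivialElementsH43
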