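import Pool.Agent.R470.Keller.Tz
import Pool.Agent.E8helper43.KE.Frac

/-!
# The trapezoid conjecture and orbits of automorphisms in the field `ℂ(F, G)`

Let `F, G` be a pair of complex polynomials in `x, y` whose bracket is a nonzero constant. If the
field `ℂ(F, G)` contains a nonconstant rational function together with all its images under the
powers of a polynomial automorphism `φ` of the plane of infinite order, then `(F, G)` is an
automorphism. In particular this is so if a nonconstant rational function of `F` and `G` is a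
semi-invariant of `φ`, for example if it is quasi-homogeneous in some system of coordinates.

It follows that `[F, G] = 0` for the pairs of the trapezoid conjecture (conditions 1, 4 and 5) with
such a rational function.
-/

set_option autoImplicit false

open MvPolynomial

namespace Pool.Agent.Results.MP_2d59ee_ag.OrbitInFieldH43

/-- (1) Let `F, G` be complex polynomials the bracket of which is a nonzero constant, let `φ` be an
automorphism of `ℂ[x, y]` of infinite order and `P / Q` a nonconstant rational function such that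
all its images `φ^l(P) / φ^l(Q)`, `l ≥ 0`, are rational functions `p(F, G) / q(F, G)` of `F` and `G`.
Then `ℂ[F, G] = ℂ[x, y]`.

(2) Let `a, b ≥ 2` be coprime, let `a` divide `m, n > 0` and let `F, G` be complex polynomials whose
Newton polygons are the trapezoids `T_{m,n}` and `T_{bm/a,bn/a}` and whose bracket is constant. If
there are `φ` and `P / Q` as in (1), then `[F, G] = 0`. -/
theorem result :
    (∀ (F G : MvPolynomial (Fin 2) ℂ) (c : ℂ), c ≠ 0 →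
      pderiv 0 F * pderiv 1 G - pderiv 1 F * pderiv 0 G = C c →
      ∀ (φ : MvPolynomial (Fin 2) ℂ ≃ₐ[ℂ] MvPolynomial (Fin 2) ℂ), (∀ l : ℕ, 0 < l → φ ^ l ≠ 1) →
      ∀ (P Q : MvPolynomial (Fin 2) ℂ), Q ≠ 0 → (∀ c : ℂ, P ≠ C c * Q) →
      (∀ l : ℕ, ∃ p q : MvPolynomial (Fin 2) ℂ, q ≠ 0 ∧
        (φ ^ l) P * aeval ![F, G] q = aeval ![F, G] p * (φ ^ l) Q) →
      Algebra.adjoin ℂ {F, G} = ⊤) ∧
    (∀ (a b m n : ℕ), 0 < m → 0 < n → a ∣ m → a ∣ n → Nat.gcd a b = 1 → 2 ≤ a → 2 ≤ b →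
      ∀ (F G : MvPolynomial (Fin 2) ℂ),
      convexHull ℝ (insert ((0:ℝ), (0:ℝ))
        ((fun d : Fin 2 →₀ ℕ => ((d 0 : ℝ), (d 1 : ℝ))) '' (↑F.support : Set (Fin 2 →₀ ℕ))))
        = {p : ℝ × ℝ | 0 ≤ p.2 ∧ p.2 ≤ (n : ℝ) ∧ 0 ≤ p.1 ∧ p.1 ≤ (m : ℝ) + (n : ℝ) - p.2} →
      convexHull ℝ (insert ((0:ℝ), (0:ℝ))
        ((fun d : Fin 2 →₀ ℕ => ((d 0 : ℝ), (d 1 : ℝ))) '' (↑G.support : Set (Fin 2 →₀ ℕ))))
        = {p : ℝ × ℝ | 0 ≤ p.2 ∧ p.2 ≤ ((b * n / a : ℕ) : ℝ) ∧ 0 ≤ p.1 ∧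
            p.1 ≤ ((b * m / a : ℕ) : ℝ) + ((b * n / a : ℕ) : ℝ) - p.2} →
      (∃ c : ℂ, pderiv 0 F * pderiv 1 G - pderiv 1 F * pderiv 0 G = C c) →
      ∀ (φ : MvPolynomial (Fin 2) ℂ ≃ₐ[ℂ] MvPolynomial (Fin 2) ℂ), (∀ l : ℕ, 0 < l → φ ^ l ≠ 1) →
      ∀ (P Q : MvPolynomial (Fin 2) ℂ), Q ≠ 0 → (∀ c : ℂ, P ≠ C c * Q) →
      (∀ l : ℕ, ∃ p q : MvPolynomial (Fin 2) ℂ, q ≠ 0 ∧
        (φ ^ l) P * aeval ![F, G] q = aeval ![F, G] p * (φ ^ l) Q) →
      pderiv 0 F * pderiv 1 G - pderiv 1 F * pderiv 0 G = 0) := by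
  have key : ∀ (F G : MvPolynomial (Fin 2) ℂ) (c : ℂ), c ≠ 0 →
      pderiv 0 F * pderiv 1 G - pderiv 1 F * pderiv 0 G = C c →
      ∀ (φ : MvPolynomial (Fin 2) ℂ ≃ₐ[ℂ] MvPolynomial (Fin 2) ℂ), (∀ l : ℕ, 0 < l → φ ^ l ≠ 1) →
      ∀ (P Q : MvPolynomial (Fin 2) ℂ), Q ≠ 0 → (∀ c : ℂ, P ≠ C c * Q) →
      (∀ l : ℕ, ∃ p q : MvPolynomial (Fin 2) ℂ, q ≠ 0 ∧
        (φ ^ l) P * aeval ![F, G] q = aeval ![F, G] p * (φ ^ l) Q) →
      ∀ i : Fin 2, ∃ g : MvPolynomial (Fin 2) ℂ, aeval ![F, G] g = X i := by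
    intro F G c hc0 hc φ hφ P Q hQ hPQ horb i
    have hJ : IsUnit (Pool.Agent.H922R2.jac ![F, G]).det :=
      Pool.Agent.R470.Keller.det_unit ![F, G] hc0 (by simpa using hc)
    have htop := Pool.Agent.E8helper43.KE.top_of_orbit_frac ![F, G] hJ φ hφ P Q hQ hPQ horb
    have h3 : (X i : MvPolynomial (Fin 2) ℂ) ∈ Pool.Agent.H922R2.SS ![F, G] := by
      rw [htop]; exact Algebra.mem_top
    exact h3
  constructor
  · intro F G c hc0 hc φ hφ P Q hQ hPQ horb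
    rw [eq_top_iff, ← MvPolynomial.adjoin_range_X, Algebra.adjoin_le_iff]
    rintro _ ⟨i, rfl⟩
    obtain ⟨g, hg⟩ := key F G c hc0 hc φ hφ P Q hQ hPQ horb i
    have h4 : Set.range ![F, G] = {F, G} := by
      rw [Matrix.range_cons, Matrix.range_cons, Matrix.range_empty, Set.union_empty]
      rfl
    rw [← h4, Algebra.adjoin_range_eq_range_aeval, SetLike.mem_coe, ← hg]
    exact ⟨g, rfl⟩
  · intro a b m n hm hn ham han hab ha hb F G h1 h4 h5 φ hφ P Q hQ hPQ horb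
    obtain ⟨c, hc⟩ := h5
    by_cases hc0 : c = 0
    · rw [hc, hc0, map_zero]
    exfalso
    have hng := Pool.Agent.R470.Keller.tz_not_good a b m n hm hn ham han hab ha hb F G h1 h4 hc0 hc
    have h2 := key F G c hc0 hc φ hφ P Q hQ hPQ horb
    apply hng
    apply Pool.Agent.R470.Keller.good_of_inv
    choose g hg using h2
    exact ⟨g, hg⟩

end Pool.Agent.Results.MP_2d59ee_ag.OrbitInFieldH43
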