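import Pool.Agent.R470.Keller.Tz
import Pool.Agent.E8helper43.KE.Two2

/-!
# The trapezoid conjecture and rational vector fields

Let `F, G` be complex polynomials in `x, y` whose bracket is a nonzero constant. Let `c` be a nonconstant
element of `ℂ[F, G]` such that `ℂ[F, G]` contains every polynomial `h` with `c ∈ ℂ[h]` (for instance a
polynomial `c` which is not composite) and let `E` be a nonzero derivation of `ℂ(x, y)` such that
`E(c)` and the divergence of `E` lie in `ℂ(F, G)`. Write `E = (R / s) (P ∂_x + Q ∂_y)` with coprime `P, Q`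
and coprime `R, s`. Then

* `R`, `s` and `P_x + Q_y` lie in `ℂ[F, G]` and `P ∂_x + Q ∂_y` maps `ℂ[F, G]` to itself;
* `(F, G)` is an automorphism if one of `R`, `s`, `P_x + Q_y` is not constant and a semi-invariant of an
  automorphism of infinite order, or if, in some coordinates of the plane, `P ∂_x + Q ∂_y` is one of the
  vector fields `∂_y`, `p x ∂_x + q y ∂_y`, `∂_x + β y ∂_y`, `x ∂_x + (m y + x ^ m) ∂_y`, for example if
  `ℂ[F, G]` contains `c` and `∂c / ∂y`.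

It follows that `[F, G] = 0` for the pairs of the trapezoid conjecture (conditions 1, 4 and 5) for
which there are such `c` and `E`.
-/

set_option autoImplicit false

open MvPolynomial

namespace Pool.Agent.Results.MP_2d59ee_ag.TwoTermsH43

/-- the polynomial vector field `P ∂_x + Q ∂_y`, applied to `f` -/
noncomputable def V (P Q f : MvPolynomial (Fin 2) ℂ) : MvPolynomial (Fin 2) ℂ :=
  P * pderiv 0 f + Q * pderiv 1 f

/-- `∂_y`, `p x ∂_x + q y ∂_y`, `∂_x + β y ∂_y` or `x ∂_x + (m y + x ^ m) ∂_y` -/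
def NormalForm (P Q : MvPolynomial (Fin 2) ℂ) : Prop :=
  (P = 0 ∧ Q = 1) ∨ (∃ p q : ℂ, (p ≠ 0 ∨ q ≠ 0) ∧ P = C p * X 0 ∧ Q = C q * X 1) ∨
  (∃ β : ℂ, P = 1 ∧ Q = C β * X 1) ∨
  (∃ m : ℕ, 1 ≤ m ∧ P = X 0 ∧ Q = C (m : ℂ) * X 1 + X 0 ^ m)

/-- there is a nonconstant `c ∈ ℂ[F, G]` such that `ℂ[F, G]` contains every polynomial `h` with
`c ∈ ℂ[h]` and such that `E(c)` and the divergence of `E` lie in `ℂ(F, G)`, where
`E = (R / s) (P ∂_x + Q ∂_y)` -/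
def TwoTerms (P Q R s F G : MvPolynomial (Fin 2) ℂ) : Prop :=
  ∃ c ∈ Algebra.adjoin ℂ {F, G}, (∀ a, c ≠ C a) ∧
    (∀ (h : MvPolynomial (Fin 2) ℂ) (γ : Polynomial ℂ), c = Polynomial.aeval h γ →
      h ∈ Algebra.adjoin ℂ {F, G}) ∧
    (∃ p q : MvPolynomial (Fin 2) ℂ, q ≠ 0 ∧
      R * V P Q c * aeval ![F, G] q = s * aeval ![F, G] p) ∧
    (∃ p q : MvPolynomial (Fin 2) ℂ, q ≠ 0 ∧
      (s * (pderiv 0 (R * P) + pderiv 1 (R * Q)) - R * V P Q s) * aeval ![F, G] q =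
        s ^ 2 * aeval ![F, G] p)

/-- the conditions on `(F, G)`; in the first one `(θ F, θ G)` is the map `(F, G)` in other
coordinates -/
def Special (F G : MvPolynomial (Fin 2) ℂ) : Prop :=
  (∃ (θ : MvPolynomial (Fin 2) ℂ ≃ₐ[ℂ] MvPolynomial (Fin 2) ℂ)
    (P Q R s : MvPolynomial (Fin 2) ℂ), R ≠ 0 ∧ s ≠ 0 ∧ NormalForm P Q ∧
      TwoTerms P Q R s (θ F) (θ G)) ∨
  (∃ P Q R s g : MvPolynomial (Fin 2) ℂ, R ≠ 0 ∧ s ≠ 0 ∧ IsRelPrime P Q ∧ IsRelPrime R s ∧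
    TwoTerms P Q R s F G ∧ (g = R ∨ g = s ∨ g = pderiv 0 P + pderiv 1 Q) ∧ (∀ a, g ≠ C a) ∧
    ∃ φ : MvPolynomial (Fin 2) ℂ ≃ₐ[ℂ] MvPolynomial (Fin 2) ℂ, (∀ l : ℕ, 0 < l → φ ^ l ≠ 1) ∧
      ∃ l : ℂ, φ g = C l * g)

/-- (1) If the bracket of `F, G` is a nonzero constant and `Special F G` holds, then
`ℂ[F, G] = ℂ[x, y]`.

(2) If the bracket of `F, G` is a nonzero constant, `P, Q` and `R, s` are coprime, `R`, `s` are not zero
and `TwoTerms P Q R s F G` holds, then `P ∂_x + Q ∂_y` maps `ℂ[F, G]` to itself and `R`, `s`,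
`P_x + Q_y` lie in `ℂ[F, G]`.

(3) Let `a, b ≥ 2` be coprime, let `a` divide `m, n > 0` and let `F, G` be complex polynomials whose
Newton polygons are the trapezoids `T_{m,n}` and `T_{bm/a,bn/a}` and whose bracket is constant. If
`Special F G` holds, then `[F, G] = 0`. -/
theorem result :
    (∀ (F G : MvPolynomial (Fin 2) ℂ) (e : ℂ), e ≠ 0 →
      pderiv 0 F * pderiv 1 G - pderiv 1 F * pderiv 0 G = C e → Special F G →
      Algebra.adjoin ℂ {F, G} = ⊤) ∧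
    (∀ (F G : MvPolynomial (Fin 2) ℂ) (e : ℂ), e ≠ 0 →
      pderiv 0 F * pderiv 1 G - pderiv 1 F * pderiv 0 G = C e →
      ∀ P Q R s : MvPolynomial (Fin 2) ℂ, IsRelPrime P Q → IsRelPrime R s → R ≠ 0 → s ≠ 0 →
      TwoTerms P Q R s F G →
      (∀ f ∈ Algebra.adjoin ℂ {F, G}, V P Q f ∈ Algebra.adjoin ℂ {F, G}) ∧
      R ∈ Algebra.adjoin ℂ {F, G} ∧ s ∈ Algebra.adjoin ℂ {F, G} ∧
      pderiv 0 P + pderiv 1 Q ∈ Algebra.adjoin ℂ {F, G}) ∧
    (∀ (a b m n : ℕ), 0 < m → 0 < n → a ∣ m → a ∣ n → Nat.gcd a b = 1 → 2 ≤ a → 2 ≤ b →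
      ∀ (F G : MvPolynomial (Fin 2) ℂ),
      convexHull ℝ (insert ((0:ℝ), (0:ℝ))
        ((fun d : Fin 2 →₀ ℕ => ((d 0 : ℝ), (d 1 : ℝ))) '' (↑F.support : Set (Fin 2 →₀ ℕ))))
        = {p : ℝ × ℝ | 0 ≤ p.2 ∧ p.2 ≤ (n : ℝ) ∧ 0 ≤ p.1 ∧ p.1 ≤ (m : ℝ) + (n : ℝ) - p.2} →
      convexHull ℝ (insert ((0:ℝ), (0:ℝ))
        ((fun d : Fin 2 →₀ ℕ => ((d 0 : ℝ), (d 1 : ℝ))) '' (↑G.support : Set (Fin 2 →₀ ℕ))))
        = {p : ℝ × ℝ | 0 ≤ p.2 ∧ p.2 ≤ ((b * n / a : ℕ) : ℝ) ∧ 0 ≤ p.1 ∧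
            p.1 ≤ ((b * m / a : ℕ) : ℝ) + ((b * n / a : ℕ) : ℝ) - p.2} →
      (∃ e : ℂ, pderiv 0 F * pderiv 1 G - pderiv 1 F * pderiv 0 G = C e) → Special F G →
      pderiv 0 F * pderiv 1 G - pderiv 1 F * pderiv 0 G = 0) := by
  have hSS : ∀ F G : MvPolynomial (Fin 2) ℂ,
      Algebra.adjoin ℂ {F, G} = Pool.Agent.H922R2.SS ![F, G] := by
    intro F G
    have h4 : Set.range ![F, G] = {F, G} := by
      rw [Matrix.range_cons, Matrix.range_cons, Matrix.range_empty, Set.union_empty]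
      rfl
    rw [← h4, Algebra.adjoin_range_eq_range_aeval]
  have hJac : ∀ (F G : MvPolynomial (Fin 2) ℂ) (e : ℂ), e ≠ 0 →
      pderiv 0 F * pderiv 1 G - pderiv 1 F * pderiv 0 G = C e →
      IsUnit (Pool.Agent.H922R2.jac ![F, G]).det := fun F G e he0 he =>
    Pool.Agent.R470.Keller.det_unit ![F, G] he0 (by simpa using he)
  have hθ : ∀ (θ : MvPolynomial (Fin 2) ℂ ≃ₐ[ℂ] MvPolynomial (Fin 2) ℂ)
      (F G : MvPolynomial (Fin 2) ℂ), (fun i => θ (![F, G] i)) = ![θ F, θ G] := by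
    intro θ F G
    funext i
    fin_cases i <;> rfl
  have hstab : ∀ (F G P Q R s : MvPolynomial (Fin 2) ℂ),
      IsUnit (Pool.Agent.H922R2.jac ![F, G]).det → s ≠ 0 → TwoTerms P Q R s F G →
      ∀ x ∈ Pool.Agent.H922R2.fF (Pool.Agent.H928R2.Pen.KK ℂ) ![F, G],
        Pool.Agent.E8helper43.KE.VK
          (Pool.Agent.H928R2.Pen.ιK ℂ (R * P) / Pool.Agent.H928R2.Pen.ιK ℂ s)
          (Pool.Agent.H928R2.Pen.ιK ℂ (R * Q) / Pool.Agent.H928R2.Pen.ιK ℂ s) x ∈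
        Pool.Agent.H922R2.fF (Pool.Agent.H928R2.Pen.KK ℂ) ![F, G] := by
    intro F G P Q R s hJ hs hT
    obtain ⟨c, hcS, hnc, hcl, ⟨p1, q1, hq1, h1⟩, p2, q2, hq2, h2⟩ := hT
    rw [hSS] at hcS
    refine Pool.Agent.E8helper43.KE.two_frac ![F, G] hJ c hcS hnc ?_ (R * P) (R * Q) s p1 q1 p2 q2
      hs hq1 hq2 ?_ ?_
    · intro h γ hγ
      rw [← hSS]
      exact hcl h γ hγ
    · rw [← h1, V]; ring
    · rw [← h2, V]; ring
  have key : ∀ (F G : MvPolynomial (Fin 2) ℂ) (e : ℂ), e ≠ 0 →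
      pderiv 0 F * pderiv 1 G - pderiv 1 F * pderiv 0 G = C e → Special F G →
      Algebra.adjoin ℂ {F, G} = ⊤ := by
    intro F G e he0 he hsp
    have hJ := hJac F G e he0 he
    rw [hSS]
    rcases hsp with ⟨θ, P, Q, R, s, hR, hs, hNF, hT⟩ |
      ⟨P, Q, R, s, g, hR, hs, hPQ, hRs, hT, hg, hnc, φ, hφ, l, hl⟩
    · apply Pool.Agent.H922R2.SS_top_comp ![F, G] θ
      have hJ' := Pool.Agent.H922R2.jac_comp θ ![F, G] hJ
      rw [hθ] at hJ' ⊢
      have hNF' : Pool.Agent.E8helper43.KE.NF P Q := hNF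
      exact hNF'.top_of_frac ![θ F, θ G] hJ' R s hR hs (hstab _ _ P Q R s hJ' hs hT)
    · obtain ⟨h1, h2, h3⟩ := Pool.Agent.E8helper43.KE.structure_of_frac ![F, G] hJ P Q R s hPQ hRs
        hR hs (hstab F G P Q R s hJ hs hT)
      have h4 := Pool.Agent.E8helper43.KE.div_mem' ![F, G] hJ P Q h1
      have h5 : g ∈ Pool.Agent.H922R2.SS ![F, G] := by
        rcases hg with rfl | rfl | rfl
        · exact h2
        · exact h3
        · exact h4
      exact Pool.Agent.E8helper43.KE.top_of_semi ![F, G] hJ φ hφ g h5 hnc l hl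
  refine ⟨key, ?_, ?_⟩
  · intro F G e he0 he P Q R s hPQ hRs hR hs hT
    have hJ := hJac F G e he0 he
    obtain ⟨h1, h2, h3⟩ := Pool.Agent.E8helper43.KE.structure_of_frac ![F, G] hJ P Q R s hPQ hRs
      hR hs (hstab F G P Q R s hJ hs hT)
    rw [hSS]
    exact ⟨fun f hf => Pool.Agent.E8helper43.KE.vf_mem ![F, G] P Q h1 f hf, h2, h3,
      Pool.Agent.E8helper43.KE.div_mem' ![F, G] hJ P Q h1⟩
  · intro a b m n hm hn ham han hab ha hb F G h1 h4 h5 hsp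
    obtain ⟨e, he⟩ := h5
    by_cases he0 : e = 0
    · rw [he, he0, map_zero]
    exfalso
    have hng :=
      Pool.Agent.R470.Keller.tz_not_good a b m n hm hn ham han hab ha hb F G h1 h4 he0 he
    have htop := key F G e he0 he hsp
    apply hng
    apply Pool.Agent.R470.Keller.good_of_inv
    have h2 : ∀ i : Fin 2, ∃ g : MvPolynomial (Fin 2) ℂ, aeval ![F, G] g = X i := by
      intro i
      have h3 : (X i : MvPolynomial (Fin 2) ℂ) ∈ Pool.Agent.H922R2.SS ![F, G] := by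
        rw [← hSS, htop]; exact Algebra.mem_top
      exact h3
    choose g hg using h2
    exact ⟨g, hg⟩

end Pool.Agent.Results.MP_2d59ee_ag.TwoTermsH43
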